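import Mathlib
import Pool.Agent.V1168.EV.MurreMot
import Pool.Agent.V1168.EV.Rel

/-!
# The conjectures of Murre for the motives of the products of all varieties in positive characteristic
with abelian varieties outside of finitely many lines of slope vectors

Let `K i` (`i` in a finite set) be CM fields with pair flips (`PairFlips`): for any two complex
embeddings `φ` of `K i` and `ψ` of `K k` (with `i = k` or not) which are neither equal nor complex
conjugate, some automorphism of `ℂ` is the identity on `φ (K i)` and the complex conjugation on
`ψ (K k)`. One CM field `K` of degree `2 g` has this property if the Galois group of its normal closure
is the largest possible one (of order `2 ^ g g!`), or contains, for each pair of complex conjugate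
embeddings, an element which exchanges them and fixes all other embeddings, or contains all the
automorphisms that exchange two pairs in this sense (`g > 2`); several such fields with linearly
disjoint normal closures have it together. We fix an isomorphism `ν` of the algebraic closure of `ℚ_p`
with `ℂ`; it defines a `p`-adic valuation `v` of `ℂ` with `v p = 1`. The slope vector of a Weil number
`π` for `p ^ a` in `K i` is the function `2 v (φ π) - a` on the complex embeddings `φ` of `K i`
(`slopeVector`); it is odd: its values at conjugate embeddings are opposite.

Let `π i` be Weil numbers for `q = p ^ a` in `K i` with nonzero slope vectors, and let `f i` be monic
polynomials whose complex roots are conjugates of `π i` (`IsPolyOf`), for instance the characteristic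
polynomials of Frobenius of the abelian varieties in the isogeny classes of the `π i` over the field
with `q` elements. Let `A` be an abelian variety over the field with `Q = q ^ s` elements which is
isogenous to a product of powers of abelian varieties coming from the field with `q` elements, with
characteristic polynomials `f i` (`IsAbelian`).

Let `k` be a field which contains the field with `Q` elements, and let `Y` be **any** smooth projective
variety over `k` such that the absolute Frobenius endomorphism of `Y` satisfies nonzero rational
polynomials on the Chow groups `CH^j(A × Y)` (this is so if a model of `Y` over a finite field has a
finite-dimensional motive in the sense of Kimura, for instance if it is dominated by a product of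
curves).

A number `ρ` comes from the finite set `Ω` of complex numbers (`From p Ω`) if it is not zero and a power
of it is the product of a power of a conjugate of an element of `Ω`, or of `1`, and of a power of `p`.

We suppose that the roots of these polynomials come from `Ω` (`DiagFrom`); there is no other condition on them.
They are the Frobenius eigenvalues of a model of `Y`, and so there is always such a finite set.

**The theorem: there is a set `E` of at most `|Ω|` lines, each of them in the space of the functions on
the complex embeddings of one of the fields `K i`, such that for all `a`, all `π i` whose slope vectors
are not on the lines in `E`, all `f i`, `s`, `A` and all `Y` as above the statement below is true.**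
The lines depend only on `ν`, the fields and `Ω`, and not on the Weil numbers, on the powers of the
abelian varieties, on the finite field or on `Y`. So for one field `K` and a given `Y` all the Weil
numbers in `K` are allowed, except those whose slope vector is a multiple of one of at most `|Ω|`
vectors in the `g`-dimensional space of the odd functions; for instance, at most `2 |Ω|` of the `2 ^ g`
slope types of the ordinary abelian varieties with complex multiplication by `K` are exceptional for
`Y`. (Exceptions to the Künneth formula behind the theorem are necessary: if `Y = A` then there are
divisor classes in `H^1(A) ⊗ H^1(Y)`.)

The results of the starting files of this kind are about varieties whose Frobenius eigenvalues are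
unrelated to the fields `K i` or have small slopes. **Here they are arbitrary**: they may generate the
same fields `K i`, or fields containing them. My `EveryVarietyTimes` for this problem is about **one**
family of Weil numbers `π i` (possibly in infinitely many fields), and bounds the total degree of the
fields of its exceptional members; for one field it only says something if its degree is bigger than
`|Ω|`. Here the fields are given, **all the Weil numbers in them are considered at the same time**, the
exceptions are on at most `|Ω|` lines, and `Ω` is any finite set (not stable under the automorphisms: one
of each set of conjugates is sufficient; and its elements need not be in CM fields).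

Let `π_A^0, …, π_A^(2 dim A)` be the Chow–Künneth decomposition of `A` of Deninger and Murre, and let
`π_Y^0, …, π_Y^(2 d)` be **any** Chow–Künneth decomposition of `Y`. Put `π^m = ∑ π_A^a × π_Y^b`, the sum
over `a + b = m`. (For `M = h(Y)` in the question `M_i = (Y, π_Y^(2 d - i))`, and `CH_l` is `CH^(d - l)`;
so `F^ν CH^n = (π^(2 n - ν) + ⋯ + π^0)_* CH^n`.) There are products `D t` of `c t` divisor classes on `A`,
finitely many (independent of `Y`), such that every element of `CH^n(A × Y)` (with rational
coefficients) is in a unique way the sum of the products of the `D t` with elements of
`CH^(n - c t)(Y)`, and

1. (A) the `π^m` are a Chow–Künneth decomposition of `A × Y`;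
2. **`F^ν CH^n(A × Y) = ⨁ D t × F^ν CH^(n - c t)(Y)`** for all `n` and `ν`;
3. **(B)**, that is `F^0 CH^n = CH^n`, holds for `A × Y` in codimension `n` if and only if it holds for `Y`
   in the codimensions `n - k`, `0 ≤ k ≤ dim A` (`WeakBM`, `WeakBN`); and **(B) in the stronger form
   with `F^(n + 1) CH^n = 0`** holds for `A × Y` and all `n ≤ m` if and only if it does for `Y`;
4. **(D)** together with (B), that is `F^1 CH^n = CH^n_hom` (the inclusion of the left side is always
   true, and so is `π^j CH^n ⊆ CH^n_hom` for `j ≠ 2 n`), holds for `A × Y` in codimension `n` if and only
   if it holds for `Y` in the codimensions `n - k`, `0 ≤ k ≤ dim A`;
5. `F^ν CH^n(A × Y) = 0` if and only if `F^ν CH^(n - k)(Y) = 0` for `0 ≤ k ≤ dim A`.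

For instance, if `Y` is a product of two curves or a surface dominated by a product of curves, with the
decomposition of Murre, then (B) and (D) hold for `A × Y`, as they do for `Y`, for all `A` as above,
**also if `Y` and `A` have multiplication by the same field.** The independence (C) is not considered.

The framework: the Chow ring and the ring of correspondences of `A`, with rational coefficients, and
the cohomology of `A` with complex coefficients (we choose an isomorphism of the algebraic closure of
`ℚ_ℓ` with `ℂ`), with the formal properties and the theorems of Tate on divisors and of Kimura on the
nilpotence of homologically trivial correspondences (`AbelianData`, `IsAbelian`); the Chow groups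
`T^(2 j)(Y, j) = CH^j(Y)` and `T^(2 j)(A × Y, j) = CH^j(A × Y)`, with the products with classes on `A`,
the push-forward from `A × Y` to `Y`, the operation of the correspondences from `A` to `A` and the
absolute Frobenius endomorphism of `Y` (`RelData`, `IsRel`); the absolute Frobenius endomorphism of
`A × Y` acts on cycles of codimension `j` as multiplication by `Q ^ j` (`PureCycles`); the rings of
correspondences of `Y` and `A × Y`, the cohomology `H` of `Y` (the one of `A × Y` is its tensor product
with the one of `A`), the cycle class maps and the exterior product of correspondences (`CorrData`,
`IsCorrData`). About the projectors of `A` we use that they are a Chow–Künneth decomposition and that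
`π_A^(2 c)` fixes the products of `c` divisor classes (`IsDeningerMurre`).

The proof. Let `x i` be the slope vectors of the `π i`, and let `ρ` be a number that comes from
`β ∈ Ω`. If a product of `ρ` and of roots of the `f i`, no two of them complex conjugate, is a power of
`q` up to a root of unity, then, computing valuations, there are odd functions `n i`, not all zero, and
constants with `∑ n i φ * x i (σ φ) = c₁ v (σ β) + c₂` for all automorphisms `σ` of `ℂ` (the sum over all `i`
and all embeddings `φ`; the automorphism in the definition of `From` is absorbed by `n`). Take the odd
part, and average over the automorphisms which fix a given embedding `φ₀` of `K i`: by the pair flips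
the average of an odd function is zero except at `φ₀` and its conjugate, so that
`n i (σ⁻¹ φ₀) * x i φ₀` is determined by `c₁` and `β` (`EV.key`). For `β = 1` all these numbers are
zero, and there are no relations, as `x i` is not zero. In general it follows that, for each `i` with `n i` not zero, `x i` is
determined up to a factor by `β`: this is the exceptional line of `β` (`EV.exists_lines`). (The odd
functions on the embeddings of the `K i` are absolutely irreducible representations, not isomorphic
for different `i`.) Hence there are no such relations outside of the lines (`EV.exactPair_of`).
If a Weil number `α` of the cohomology of `A` and a number `ρ` that comes from `Ω` have the product `Q ^ j`, then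
`α = Q ^ k` and `α` is a product of pairs of complex conjugate numbers, so that the eigenvectors of the
Frobenius endomorphism of `A` for `α` are products of divisor classes. There are products `D t` of
`c t` divisor classes on `A` with a dual system `E t` for the intersection pairing; let `p` be the
projector given by them. For a suitable polynomial `P` the correspondence `(1 - p) P (F)` is
homologically trivial, hence nilpotent, and `P (F)` is invertible on `CH^j(A × Y)`. So `p` acts as the
identity: `x = ∑ D t × (E t)_* x` for all `x` in `CH^j(A × Y)`. As `π_A^a` maps `D t` to itself
(`a = 2 c t`) or to zero, `π^m (D t × y) = D t × π_Y^(m - 2 c t) y`, whence (2) to (5)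
(`EV.murreMotiveTimes`).
-/

set_option autoImplicit false

namespace Pool.Agent.Results.MP_38de51_ag.ExceptionalSlopeLines

open NumberField Pool.Agent.V1168.EV

/-- **For every variety `Y` over a field of characteristic `p`, whose Frobenius satisfies polynomials on the
Chow groups, with Frobenius eigenvalues from the finite set `Ω` and all abelian
varieties `A` given by Weil numbers in the CM fields `K i` (with pair flips), with slope vectors outside
of at most `|Ω|` lines: the
conjectures (A), (B) and (D) of Murre for `A × Y` reduce to those for `Y`.** -/
theorem result {p : ℕ} [Fact p.Prime] (ν : PadicAlgCl p ≃+* ℂ) {I : Type} [Finite I]
    (K : I → Type) [∀ i, Field (K i)] [∀ i, NumberField (K i)] [∀ i, IsCMField (K i)]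
    (hK : PairFlips K) (Ω : Finset ℂ) :
    ∃ E : Finset (Σ i, ((K i →+* ℂ) → ℝ)), E.card ≤ Ω.card ∧
      ForAllOutside ν K (MurreMotiveTimes p Ω) E := by
  obtain ⟨E, hE, h⟩ := exists_lines_forall ν K hK Ω
  exact ⟨E, hE, h _ fun q f hq hR => murreMotiveTimes hq hR⟩

end Pool.Agent.Results.MP_38de51_ag.ExceptionalSlopeLines
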