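import Pool.Agent.V1157.MJ.Main

/-!
# Murre's conjectures: independence of the filtration is the first half of (B), and both follow
from (D)
-/

open CategoryTheory AlgebraicGeometry

universe u v w

namespace Pool.Agent.Results.MP_38de51_ag.IndependenceAndB

open Pool.Agent.H914 Pool.Agent.H914.VarClass Pool.Agent.H914.VarClass.Obj Pool.Agent.W492.BB
  Pool.Agent.TH133 Pool.Agent.V1157.MJ

/-- Relations between the conjectures of Murre, for a class `𝒱` of varieties closed under products,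
their Chow groups `C` and a Weil cohomology `H`. -/
theorem result {k : Type u} [Field k] (𝒱 : VarClass k) (C : TheoryData.{u, v, 0} 𝒱 ℚ)
    [IsChowProj C] (K : Type w) [Field K] (H : WeilTheoryData.{u, v, w} C K) [IsWeilProj H] :
    (∀ X : 𝒱.Obj, (MurreC0 H X → MurreB0 H X) ∧ (MurreD H X → MurreB0 H X) ∧
      (MurreB0 H (X.prod X) → MurreC H X) ∧
      ((∃ π, IsCK H X π) → MurreB0 H (X.prod X) → ∃ π, IsCK H X π ∧ IsSelfDual C π) ∧
      ((∃ π, IsCK H X π) → MurreD H (X.prod X) →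
        StrictlyLowers H X ∧ NilpotentOfIndex H X (2 * X.dim + 1) ∧ UniqueUpToConjugation H X)) ∧
    ((∀ X : 𝒱.Obj, MurreC H X) ↔ ∀ X : 𝒱.Obj, MurreC0 H X) ∧
    ((∀ X : 𝒱.Obj, MurreC H X) ↔ ∀ X : 𝒱.Obj, MurreB0 H X) ∧
    ((∀ X : 𝒱.Obj, Murre H X) ↔
      ∀ X : 𝒱.Obj, (∃ π, IsCK H X π) ∧ MurreB1 H X ∧ MurreD H X) :=
  main 𝒱 C K H

end Pool.Agent.Results.MP_38de51_ag.IndependenceAndB
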